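import Mathlib

set_option autoImplicit false

open Set

namespace Pool.Agent.Results.MP_3db952_lc.NoUniversal

/-- Projection to the first axis. -/
def p1 (S : Set (ℝ × ℝ)) : Set (ℝ × ℝ) := {z | z.2 = 0 ∧ ∃ y, (z.1, y) ∈ S}

/-- Projection to the second axis. -/
def p2 (S : Set (ℝ × ℝ)) : Set (ℝ × ℝ) := {z | z.1 = 0 ∧ ∃ x, (x, z.2) ∈ S}

/-- Direct product of a subset of the first axis and a subset of the second axis. -/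
def pr (A B : Set (ℝ × ℝ)) : Set (ℝ × ℝ) := {z | (z.1, 0) ∈ A ∧ (0, z.2) ∈ B}

/-- Projective algebras of plane sets. -/
def IsPA (𝒜 : Set (Set (ℝ × ℝ))) : Prop :=
  ∅ ∈ 𝒜 ∧ (∀ S ∈ 𝒜, ∀ T ∈ 𝒜, S ∪ T ∈ 𝒜 ∧ S ∩ T ∈ 𝒜) ∧ (∀ S ∈ 𝒜, Sᶜ ∈ 𝒜 ∧ p1 S ∈ 𝒜 ∧ p2 S ∈ 𝒜) ∧
    ∀ A ∈ 𝒜, ∀ B ∈ 𝒜, A ⊆ {z | z.2 = 0} → B ⊆ {z | z.1 = 0} → pr A B ∈ 𝒜

/-- Embeddings of projective algebras. -/
def IsEmb (𝒜 𝒰 : Set (Set (ℝ × ℝ))) (φ : Set (ℝ × ℝ) → Set (ℝ × ℝ)) : Prop :=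
  MapsTo φ 𝒜 𝒰 ∧ InjOn φ 𝒜 ∧
    (∀ S ∈ 𝒜, ∀ T ∈ 𝒜, φ (S ∪ T) = φ S ∪ φ T ∧ φ (S ∩ T) = φ S ∩ φ T) ∧
    (∀ S ∈ 𝒜, φ Sᶜ = (φ S)ᶜ ∧ φ (p1 S) = p1 (φ S) ∧ φ (p2 S) = p2 (φ S)) ∧
    ∀ A ∈ 𝒜, ∀ B ∈ 𝒜, A ⊆ {z | z.2 = 0} → B ⊆ {z | z.1 = 0} → φ (pr A B) = pr (φ A) (φ B)

inductive Tm : Type
  | gen : Fin 4 → Tm
  | un : Tm → Tm → Tm
  | it : Tm → Tm → Tm
  | co : Tm → Tm
  | q1 : Tm → Tm
  | q2 : Tm → Tm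
  | pd : Tm → Tm → Tm
  deriving Countable

def ev (g : Fin 4 → Set (ℝ × ℝ)) : Tm → Set (ℝ × ℝ)
  | .gen i => g i
  | .un s t => ev g s ∪ ev g t
  | .it s t => ev g s ∩ ev g t
  | .co s => (ev g s)ᶜ
  | .q1 s => p1 (ev g s)
  | .q2 s => p2 (ev g s)
  | .pd s t => pr (ev g s) (ev g t)

def pt (D E : Set (ℝ × ℝ)) : ℕ → Set (ℝ × ℝ)
  | 0 => p1 (p2 univ)
  | n + 1 => p1 (pr (p1 univ) (p2 (pr (pt D E n) (p2 univ) ∩ D)) ∩ E)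

theorem pt_eq (n : ℕ) : pt {z | z.1 = z.2} {z | z.1 = z.2 + 1} n = {((n : ℝ), (0 : ℝ))} := by
  induction n with
  | zero => ext ⟨x, y⟩; simp [pt, p1, p2, and_comm]
  | succ n ih =>
    ext ⟨x, y⟩
    simp only [pt, ih, p1, p2, pr, mem_ofPred_eq, mem_inter_iff, mem_univ, mem_singleton_iff,
      Prod.mk.injEq, exists_const, and_true, true_and]
    constructor
    · rintro ⟨rfl, y, ⟨_, rfl, rfl⟩, rfl⟩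
      simp
    · rintro ⟨rfl, rfl⟩
      exact ⟨rfl, n, ⟨n, rfl, rfl⟩, by simp⟩

theorem result (𝒰 : Set (Set (ℝ × ℝ))) (hc : 𝒰.Countable) :
    ∃ 𝒜 : Set (Set (ℝ × ℝ)), IsPA 𝒜 ∧ 𝒜.Countable ∧ ¬ ∃ φ, IsEmb 𝒜 𝒰 φ := by
  let code : Set (ℝ × ℝ) × Set (ℝ × ℝ) × Set (ℝ × ℝ) → Set ℕ :=
    fun t => {n | pt t.1 t.2.1 n ∩ t.2.2 = ∅}
  obtain ⟨A, hA⟩ : ∃ A, A ∉ code '' (𝒰 ×ˢ 𝒰 ×ˢ 𝒰) := by
    by_contra h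
    push Not at h
    obtain ⟨f, hf⟩ := ((hc.prod (hc.prod hc)).image code).exists_eq_range ⟨∅, h _⟩
    exact Function.cantor_surjective f (fun A => mem_range.1 (hf ▸ h A))
  let g : Fin 4 → Set (ℝ × ℝ) := ![∅, {z | z.1 = z.2}, {z | z.1 = z.2 + 1},
    {z | ∀ n ∈ A, z ≠ ((n : ℝ), 0)}]
  have hPA : IsPA (range (ev g)) := by
    refine ⟨⟨.gen 0, rfl⟩, ?_, ?_, ?_⟩
    · rintro _ ⟨s, rfl⟩ _ ⟨t, rfl⟩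
      exact ⟨⟨.un s t, rfl⟩, ⟨.it s t, rfl⟩⟩
    · rintro _ ⟨s, rfl⟩
      exact ⟨⟨.co s, rfl⟩, ⟨.q1 s, rfl⟩, ⟨.q2 s, rfl⟩⟩
    · rintro _ ⟨s, rfl⟩ _ ⟨t, rfl⟩ - -
      exact ⟨.pd s t, rfl⟩
  refine ⟨range (ev g), hPA, countable_range _, ?_⟩
  have hD : g 1 ∈ range (ev g) := ⟨.gen 1, rfl⟩
  have hE : g 2 ∈ range (ev g) := ⟨.gen 2, rfl⟩
  have hC : g 3 ∈ range (ev g) := ⟨.gen 3, rfl⟩
  generalize range (ev g) = 𝒜 at hPA hD hE hC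
  obtain ⟨a0, a1, a2, a3⟩ := hPA
  rintro ⟨φ, h1, h2, h3, h4, h5⟩
  have u : univ ∈ 𝒜 := compl_empty ▸ (a2 _ a0).1
  have e0 : φ ∅ = ∅ := by
    have := (h3 _ a0 _ (a2 _ a0).1).2
    rwa [empty_inter, (h4 _ a0).1, inter_compl_self] at this
  have eu : φ univ = univ := by rw [← compl_empty, (h4 _ a0).1, e0]
  have s1 : ∀ S, p1 S ⊆ {z | z.2 = 0} := fun S z hz => hz.1
  have s2 : ∀ S, p2 S ⊆ {z | z.1 = 0} := fun S z hz => hz.1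
  have uX := (a2 _ u).2.1
  have uY := (a2 _ u).2.2
  have key : ∀ n, pt (g 1) (g 2) n ∈ 𝒜 ∧ φ (pt (g 1) (g 2) n) = pt (φ (g 1)) (φ (g 2)) n := by
    intro n
    induction n with
    | zero => exact ⟨(a2 _ uY).2.1, by rw [pt, (h4 _ uY).2.1, (h4 _ u).2.2, eu, pt]⟩
    | succ n ih =>
      have sx : pt (g 1) (g 2) n ⊆ {z | z.2 = 0} := by cases n <;> exact s1 _
      have b1 := a3 _ ih.1 _ uY sx (s2 _)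
      have b2 := (a1 _ b1 _ hD).2
      have b3 := (a2 _ b2).2.2
      have b4 := a3 _ uX _ b3 (s1 _) (s2 _)
      have b5 := (a1 _ b4 _ hE).2
      refine ⟨(a2 _ b5).2.1, ?_⟩
      rw [pt, (h4 _ b5).2.1, (h3 _ b4 _ hE).2, h5 _ uX _ b3 (s1 _) (s2 _), (h4 _ b2).2.2,
        (h3 _ b1 _ hD).2, h5 _ ih.1 _ uY sx (s2 _), ih.2, (h4 _ u).2.1, (h4 _ u).2.2, eu, pt]
  refine hA ⟨(φ (g 1), φ (g 2), φ (g 3)), ⟨h1 hD, h1 hE, h1 hC⟩, ?_⟩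
  ext n
  simp only [code, mem_ofPred_eq]
  rw [← (key n).2, ← (h3 _ (key n).1 _ hC).2, ← e0, h2.eq_iff (a1 _ (key n).1 _ hC).2 a0]
  show pt {z | z.1 = z.2} {z | z.1 = z.2 + 1} n ∩ {z | ∀ n ∈ A, z ≠ ((n : ℝ), 0)} = ∅ ↔ _
  rw [pt_eq, singleton_inter_eq_empty]
  simp

end Pool.Agent.Results.MP_3db952_lc.NoUniversal
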